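import Pool.Agent.Helper21.UV.Real

/-!
The pair lemma with zeros on both sides.

`A` is real and block lower triangular, `M` is block upper triangular (with respect to a level
function), with the same diagonal blocks and positive principal minors. If the almost principal
minors `M[K i, K j]` and `A[K j, K i]` (`lev i ≤ lev j`) always have the same sign (`-`, `0`, `+`),
then `A` is a limit of strict GKK matrices.
-/

namespace Pool.Agent.Helper21.UV

open Matrix Finset Pool.Agent.Helper5.GKK Pool.Agent.Helper85.SVG Pool.Agent.Helper21.GK Filter Topology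
open scoped ComplexOrder

set_option linter.unusedSimpArgs false

variable {n : ℕ}

/-! ### block triangular matrices -/

section tri

variable {β : Type*} [LinearOrder β] {lev : Fin n → β} {X A : Matrix (Fin n) (Fin n) ℝ}

/-- block lower triangular -/
def Low (lev : Fin n → β) (X : Matrix (Fin n) (Fin n) ℝ) : Prop := ∀ i j, lev i < lev j → X i j = 0

theorem scr_insert' {M : Matrix (Fin n) (Fin n) ℝ} {K : Finset (Fin n)} {k : Fin n} (hk : k ∉ K)
    (h1 : pmr M K ≠ 0) (h2 : pmr M (insert k K) ≠ 0) (i j : Fin n) :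
    scr M (insert k K) i j = scr M K i j - scr M K i k * scr M K k j / scr M K k k := by
  rw [pmr_insert h1 hk] at h2
  have h3 := right_ne_zero_of_mul h2
  rw [scr, ppr_insert h1 hk, pmr_insert h1 hk]
  field_simp

theorem Low.scr (hX : Low lev X) (hP : ∀ S, 0 < pmr X S) (K : Finset (Fin n)) :
    ∀ i j, i ∉ K → j ∉ K → lev i < lev j → scr X K i j = 0 := by
  induction K using Finset.induction_on with
  | empty => intro i j _ _ h; rw [scr_empty]; exact hX i j h
  | insert k K hk ih =>
    intro i j hi hj hij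
    have hi' : i ∉ K := fun h => hi (mem_insert_of_mem h)
    have hj' : j ∉ K := fun h => hj (mem_insert_of_mem h)
    rw [scr_insert hP hk, ih i j hi' hj' hij]
    rcases lt_or_ge (lev i) (lev k) with h | h
    · rw [ih i k hi' hk h]; simp
    · rw [ih k j hk hj' (h.trans_lt hij)]; simp

/-- comparison of block triangular matrices with the same diagonal blocks -/
theorem Low.same (hA : Low lev A) (hX : Low lev X) (heq : ∀ i j, lev i = lev j → X i j = A i j)
    (hP : ∀ S, 0 < pmr A S) (K : Finset (Fin n)) : pmr X K = pmr A K ∧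
      (∀ i j, i ∉ K → j ∉ K → lev i = lev j → GK.scr X K i j = GK.scr A K i j) ∧
      (∀ i j, i ∉ K → j ∉ K → lev i < lev j → GK.scr X K i j = 0) := by
  induction K using Finset.induction_on with
  | empty =>
    refine ⟨by rw [pmr_empty, pmr_empty], fun i j _ _ h => ?_, fun i j _ _ h => ?_⟩
    · rw [scr_empty, scr_empty, heq i j h]
    · rw [scr_empty]; exact hX i j h
  | insert k K hk ih =>
    obtain ⟨h1, h2, h3⟩ := ih
    have hpX : pmr X K ≠ 0 := by rw [h1]; exact (hP K).ne'
    have e1 : pmr X (insert k K) = pmr A (insert k K) := by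
      rw [pmr_insert hpX hk, pmr_insert (hP K).ne' hk, h1, h2 k k hk hk rfl]
    have hpX' : pmr X (insert k K) ≠ 0 := by rw [e1]; exact (hP _).ne'
    refine ⟨e1, fun i j hi hj hij => ?_, fun i j hi hj hij => ?_⟩
    · have hi' : i ∉ K := fun h => hi (mem_insert_of_mem h)
      have hj' : j ∉ K := fun h => hj (mem_insert_of_mem h)
      rw [scr_insert' hk hpX hpX', scr_insert hP hk, h2 i j hi' hj' hij, h2 k k hk hk rfl]
      rcases lt_trichotomy (lev i) (lev k) with h | h | h
      · rw [h3 i k hi' hk h, hA.scr hP K i k hi' hk h]; simp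
      · rw [h2 i k hi' hk h, h2 k j hk hj' (h.symm.trans hij)]
      · rw [h3 k j hk hj' (hij ▸ h), hA.scr hP K k j hk hj' (hij ▸ h)]; simp
    · have hi' : i ∉ K := fun h => hi (mem_insert_of_mem h)
      have hj' : j ∉ K := fun h => hj (mem_insert_of_mem h)
      rw [scr_insert' hk hpX hpX', h3 i j hi' hj' hij]
      rcases lt_or_ge (lev i) (lev k) with h | h
      · rw [h3 i k hi' hk h]; simp
      · rw [h3 k j hk hj' (h.trans_lt hij)]; simp

/-- for two indices of the same level only the eliminated indices of this level matter -/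
theorem Low.filter (hX : Low lev X) (hP : ∀ S, 0 < pmr X S) (K : Finset (Fin n)) :
    ∀ i j, i ∉ K → j ∉ K → lev i = lev j →
      GK.scr X K i j = GK.scr X (K.filter fun k => lev k = lev i) i j := by
  induction K using Finset.induction_on with
  | empty => intro i j _ _ _; rw [filter_empty]
  | insert k K hk ih =>
    intro i j hi hj hij
    have hi' : i ∉ K := fun h => hi (mem_insert_of_mem h)
    have hj' : j ∉ K := fun h => hj (mem_insert_of_mem h)
    rw [scr_insert hP hk, filter_insert]
    by_cases h : lev k = lev i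
    · rw [if_pos h, scr_insert hP (fun h' => hk (mem_filter.mp h').1), ih i j hi' hj' hij,
        ih i k hi' hk h.symm, ih k j hk hj' (h.trans hij), ih k k hk hk rfl]
      simp only [h]
    · rw [if_neg h, ← ih i j hi' hj' hij]
      rcases lt_or_gt_of_ne h with h | h
      · rw [hX.scr hP K k j hk hj' (hij ▸ h)]; simp
      · rw [hX.scr hP K i k hi' hk h]; simp

end tri

/-! ### pairs -/

/-- The data of the pair lemma. -/
structure Pair (lev : Fin n → ℕ) (A M : Matrix (Fin n) (Fin n) ℝ) : Prop where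
  low : ∀ i j, lev i < lev j → A i j = 0
  upp : ∀ i j, lev j < lev i → M i j = 0
  eq : ∀ i j, lev i = lev j → A i j = M i j
  posA : ∀ S, 0 < pmr A S
  posM : ∀ S, 0 < pmr M S
  q : ∀ K i j, i ∉ K → j ∉ K → i ≠ j → lev i ≤ lev j → Q (ppr M K i j) (ppr A K j i)

variable {lev : Fin n → ℕ} {A M : Matrix (Fin n) (Fin n) ℝ}

theorem low_dual (h : ∀ i j, lev j < lev i → M i j = 0) :
    Low (fun i => OrderDual.toDual (lev i)) M := fun i j hij => h i j hij

theorem scr_low (h : ∀ i j, lev i < lev j → A i j = 0) (hP : ∀ S, 0 < pmr A S) {K : Finset (Fin n)}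
    {i j : Fin n} (hi : i ∉ K) (hj : j ∉ K) (hij : lev i < lev j) : scr A K i j = 0 :=
  Low.scr (lev := lev) h hP K i j hi hj hij

theorem scr_upp (h : ∀ i j, lev j < lev i → M i j = 0) (hP : ∀ S, 0 < pmr M S) {K : Finset (Fin n)}
    {i j : Fin n} (hi : i ∉ K) (hj : j ∉ K) (hij : lev j < lev i) : scr M K i j = 0 :=
  Low.scr (low_dual h) hP K i j hi hj hij

theorem ppr_low (h : ∀ i j, lev i < lev j → A i j = 0) (hP : ∀ S, 0 < pmr A S) {K : Finset (Fin n)}
    {i j : Fin n} (hi : i ∉ K) (hj : j ∉ K) (hij : lev i < lev j) : ppr A K i j = 0 := by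
  rw [ppr_eq (hP K).ne', scr_low h hP hi hj hij, mul_zero]

theorem ppr_upp (h : ∀ i j, lev j < lev i → M i j = 0) (hP : ∀ S, 0 < pmr M S) {K : Finset (Fin n)}
    {i j : Fin n} (hi : i ∉ K) (hj : j ∉ K) (hij : lev j < lev i) : ppr M K i j = 0 := by
  rw [ppr_eq (hP K).ne', scr_upp h hP hi hj hij, mul_zero]

/-- constructor through Schur complements -/
theorem Pair.mk' (low : ∀ i j, lev i < lev j → A i j = 0) (upp : ∀ i j, lev j < lev i → M i j = 0)
    (eq : ∀ i j, lev i = lev j → A i j = M i j) (posA : ∀ S, 0 < pmr A S) (posM : ∀ S, 0 < pmr M S)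
    (q : ∀ K i j, i ∉ K → j ∉ K → i ≠ j → lev i ≤ lev j → Q (scr M K i j) (scr A K j i)) :
    Pair lev A M :=
  ⟨low, upp, eq, posA, posM, fun K i j hi hj hij hl => by
    rw [ppr_eq (posA K).ne', ppr_eq (posM K).ne']
    exact (q K i j hi hj hij hl).smul (posM K) (posA K)⟩

theorem Pair.q' (h : Pair lev A M) {K : Finset (Fin n)} {i j : Fin n} (hi : i ∉ K) (hj : j ∉ K)
    (hij : i ≠ j) : Q (ppr M K i j) (ppr A K j i) := by
  rcases le_or_gt (lev i) (lev j) with hl | hl
  · exact h.q K i j hi hj hij hl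
  · rw [ppr_low h.low h.posA hj hi hl, ppr_upp h.upp h.posM hi hj hl]
    exact Q.zero

theorem Pair.qs (h : Pair lev A M) {K : Finset (Fin n)} {i j : Fin n} (hi : i ∉ K) (hj : j ∉ K)
    (hij : i ≠ j) : Q (scr M K i j) (scr A K j i) := by
  have := h.q' hi hj hij
  rw [ppr_eq (h.posA K).ne', ppr_eq (h.posM K).ne'] at this
  exact this.of_smul (h.posM K) (h.posA K)

/-! ### strict pairs -/

theorem det_rel {F G : Matrix (Fin n) (Fin n) ℝ} {ε : ℝ} (hε : 0 < ε)
    (h : ∀ i j, ε ^ lev i * F i j = ε ^ lev j * G i j) (K : Finset (Fin n)) (i j : Fin n) :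
    ε ^ lev i * ppr F K i j = ε ^ lev j * ppr G K i j := by
  set r : K ⊕ Unit → Fin n := Sum.elim (Subtype.val : K → Fin n) (fun _ : Unit => i) with hr
  set c : K ⊕ Unit → Fin n := Sum.elim (Subtype.val : K → Fin n) (fun _ : Unit => j) with hc
  have e1 : (of fun x y => ε ^ lev (r x) * F.submatrix r c x y : Matrix (K ⊕ Unit) (K ⊕ Unit) ℝ)
      = of fun x y => ε ^ lev (c y) * G.submatrix r c x y := by
    ext x y
    exact h _ _
  have e2 := congrArg Matrix.det e1
  have e3 : (of fun x y => ε ^ lev (r x) * F.submatrix r c x y : Matrix (K ⊕ Unit) (K ⊕ Unit) ℝ).det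
      = (∏ x, ε ^ lev (r x)) * (F.submatrix r c).det := det_mul_column (fun x => ε ^ lev (r x)) _
  have e4 : (of fun x y => ε ^ lev (c y) * G.submatrix r c x y : Matrix (K ⊕ Unit) (K ⊕ Unit) ℝ).det
      = (∏ y, ε ^ lev (c y)) * (G.submatrix r c).det := det_mul_row (fun y => ε ^ lev (c y)) _
  rw [e3, e4, Fintype.prod_sum_type, Fintype.prod_sum_type] at e2
  simp only [hr, hc, Sum.elim_inl, Sum.elim_inr, univ_unique, prod_singleton] at e2
  have h0 : (∏ x : K, ε ^ lev (x : Fin n)) ≠ 0 := by
    refine prod_ne_zero_iff.mpr fun x _ => ?_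
    positivity
  refine mul_left_cancel₀ h0 ?_
  unfold ppr
  linarith

theorem strict_pair (low : ∀ i j, lev i < lev j → A i j = 0) (upp : ∀ i j, lev j < lev i → M i j = 0)
    (eq : ∀ i j, lev i = lev j → A i j = M i j) (posA : ∀ S, 0 < pmr A S)
    (hs : ∀ K i j, i ∉ K → j ∉ K → i ≠ j → lev i ≤ lev j → 0 < ppr M K i j * ppr A K j i) :
    cx A ∈ closure {B : Matrix (Fin n) (Fin n) ℂ | IsStrictGKK B} := by
  set F : ℝ → Matrix (Fin n) (Fin n) ℝ := fun ε => of fun i j =>
    if lev i < lev j then ε ^ (lev j - lev i) * M i j else A i j with hF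
  set G : ℝ → Matrix (Fin n) (Fin n) ℝ := fun ε => of fun i j =>
    if lev j < lev i then ε ^ (lev i - lev j) * A i j else M i j with hG
  have tF : Tendsto F (𝓝[>] 0) (𝓝 A) := by
    have hc : Continuous F := by
      refine continuous_matrix fun i j => ?_
      simp only [hF, of_apply]
      by_cases h : lev i < lev j
      · simp only [if_pos h]; fun_prop
      · simp only [if_neg h]; fun_prop
    have h0 : F 0 = A := by
      ext i j
      simp only [hF, of_apply]
      by_cases h : lev i < lev j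
      · rw [if_pos h, low i j h, zero_pow (by omega), zero_mul]
      · rw [if_neg h]
    have := hc.tendsto 0
    rw [h0] at this
    exact this.mono_left nhdsWithin_le_nhds
  have tG : Tendsto G (𝓝[>] 0) (𝓝 M) := by
    have hc : Continuous G := by
      refine continuous_matrix fun i j => ?_
      simp only [hG, of_apply]
      by_cases h : lev j < lev i
      · simp only [if_pos h]; fun_prop
      · simp only [if_neg h]; fun_prop
    have h0 : G 0 = M := by
      ext i j
      simp only [hG, of_apply]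
      by_cases h : lev j < lev i
      · rw [if_pos h, upp i j h, zero_pow (by omega), zero_mul]
      · rw [if_neg h]
    have := hc.tendsto 0
    rw [h0] at this
    exact this.mono_left nhdsWithin_le_nhds
  have rel : ∀ ε : ℝ, ∀ i j, ε ^ lev i * F ε i j = ε ^ lev j * G ε i j := by
    intro ε i j
    simp only [hF, hG, of_apply]
    rcases lt_trichotomy (lev i) (lev j) with h | h | h
    · rw [if_pos h, if_neg (by omega), ← mul_assoc, ← pow_add]
      congr 2; omega
    · rw [if_neg (by omega), if_neg (by omega), h, eq i j h]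
    · rw [if_neg (by omega), if_pos h, ← mul_assoc, ← pow_add]
      congr 2; omega
  have e0 : ∀ᶠ ε : ℝ in 𝓝[>] (0:ℝ), 0 < ε := self_mem_nhdsWithin
  have e1 : ∀ᶠ ε : ℝ in 𝓝[>] (0:ℝ), ∀ S, 0 < pmr (F ε) S := by
    refine eventually_all.mpr fun S => ?_
    exact (((continuous_pmr S).tendsto A).comp tF).eventually (lt_mem_nhds (posA S))
  have e2 : ∀ᶠ ε : ℝ in 𝓝[>] (0:ℝ), ∀ K i j, i ∉ K → j ∉ K → i ≠ j → lev i ≤ lev j →
      0 < ppr (G ε) K i j * ppr (F ε) K j i := by
    refine eventually_all.mpr fun K => eventually_all.mpr fun i => eventually_all.mpr fun j => ?_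
    by_cases h : i ∉ K ∧ j ∉ K ∧ i ≠ j ∧ lev i ≤ lev j
    · have h1 := hs K i j h.1 h.2.1 h.2.2.1 h.2.2.2
      have t := (((continuous_ppr K i j).tendsto M).comp tG).mul
        (((continuous_ppr K j i).tendsto A).comp tF)
      filter_upwards [t.eventually (lt_mem_nhds h1)] with ε hε _ _ _ _ using hε
    · exact Eventually.of_forall fun ε h1 h2 h3 h4 => absurd ⟨h1, h2, h3, h4⟩ h
  have key : ∀ᶠ ε : ℝ in 𝓝[>] (0:ℝ), cx (F ε) ∈ {B : Matrix (Fin n) (Fin n) ℂ | IsStrictGKK B} := by
    filter_upwards [e0, e1, e2] with ε h0 h1 h2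
    have hP : ∀ S, 0 < pm (cx (F ε)) S := fun S => pm_cx_pos.mpr (h1 S)
    have main : ∀ K i j, i ∉ K → j ∉ K → i ≠ j → lev i ≤ lev j →
        0 < ppr (F ε) K i j * ppr (F ε) K j i := by
      intro K i j hi hj hij hl
      have h3 := h2 K i j hi hj hij hl
      have h4 := det_rel h0 (rel ε) K i j
      have p1 : 0 < ε ^ lev i := by positivity
      have p2 : 0 < ε ^ lev j := by positivity
      have h5 : 0 < ε ^ lev i * (ppr (F ε) K i j * ppr (F ε) K j i) := by
        rw [← mul_assoc, h4, mul_assoc]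
        exact mul_pos p2 h3
      exact (pos_iff_pos_of_mul_pos h5).mp p1
    show IsStrictGKK (cx (F ε))
    rw [isStrictGKK_iff]
    refine ⟨hP, fun K i j hi hj hij => ?_⟩
    rw [ap_eq_pp _ hP hi hj hij, pp_cx, pp_cx, ← Complex.ofReal_mul, Complex.zero_lt_real]
    rcases le_total (lev i) (lev j) with hl | hl
    · exact main K i j hi hj hij hl
    · rw [mul_comm]
      exact main K j i hj hi hij.symm hl
  exact mem_closure_of_tendsto ((continuous_cx.tendsto A).comp tF) key

/-! ### second phase: zeros inside the diagonal blocks -/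

theorem Pair.of_cross (h : Pair lev A M)
    (hc : ∀ K i j, i ∉ K → j ∉ K → lev i < lev j → ppr M K i j ≠ 0) :
    cx A ∈ closure {B : Matrix (Fin n) (Fin n) ℂ | IsStrictGKK B} := by
  set B : Matrix (Fin n) (Fin n) ℝ := of fun i j => if lev i = lev j then A i j else 0 with hB
  have lowB : Low lev B := by
    intro i j hij
    simp only [hB, of_apply]
    rw [if_neg hij.ne]
  have uppB : Low (fun i => OrderDual.toDual (lev i)) B := by
    intro i j hij
    have hij' : lev j < lev i := hij
    simp only [hB, of_apply]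
    rw [if_neg hij'.ne']
  have sameA := fun K => Low.same (lev := lev) h.low lowB (fun i j hij => by
    simp only [hB, of_apply]; rw [if_pos hij]) h.posA K
  have sameM := fun K => Low.same (low_dual h.upp) uppB (fun i j hij => by
    have hij' : lev i = lev j := hij
    simp only [hB, of_apply]; rw [if_pos hij', h.eq i j hij']) h.posM K
  have posB : ∀ S, 0 < pmr B S := fun S => by rw [(sameA S).1]; exact h.posA S
  have hBq : ∀ K i j, i ∉ K → j ∉ K → i ≠ j → Q (ppr B K i j) (ppr B K j i) := by
    intro K i j hi hj hij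
    rw [ppr_eq (posB K).ne', ppr_eq (posB K).ne']
    refine Q.smul (posB K) (posB K) ?_
    rcases lt_trichotomy (lev i) (lev j) with hl | hl | hl
    · rw [(sameA K).2.2 i j hi hj hl, (sameM K).2.2 j i hj hi hl]
      exact Q.zero
    · rw [(sameM K).2.1 i j hi hj (congrArg _ hl), (sameA K).2.1 j i hj hi hl.symm]
      exact h.qs hi hj hij
    · rw [(sameA K).2.2 j i hj hi hl, (sameM K).2.2 i j hi hj hl]
      exact Q.zero
  have hcl := real_mem_closure posB hBq
  set ΦA : Matrix (Fin n) (Fin n) ℝ → Matrix (Fin n) (Fin n) ℝ := fun R => of fun i j =>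
    if lev i = lev j then R i j else A i j with hΦA
  set ΦM : Matrix (Fin n) (Fin n) ℝ → Matrix (Fin n) (Fin n) ℝ := fun R => of fun i j =>
    if lev i = lev j then R i j else M i j with hΦM
  have cA : Continuous ΦA := by
    refine continuous_matrix fun i j => ?_
    simp only [hΦA, of_apply]
    by_cases h : lev i = lev j
    · simp only [if_pos h]; exact continuous_apply_apply i j
    · simp only [if_neg h]; fun_prop
  have cM : Continuous ΦM := by
    refine continuous_matrix fun i j => ?_
    simp only [hΦM, of_apply]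
    by_cases h : lev i = lev j
    · simp only [if_pos h]; exact continuous_apply_apply i j
    · simp only [if_neg h]; fun_prop
  have eA : ΦA B = A := by
    ext i j
    simp only [hΦA, hB, of_apply]
    by_cases h' : lev i = lev j
    · rw [if_pos h', if_pos h']
    · rw [if_neg h']
  have eM : ΦM B = M := by
    ext i j
    simp only [hΦM, hB, of_apply]
    by_cases h' : lev i = lev j
    · rw [if_pos h', if_pos h', h.eq i j h']
    · rw [if_neg h']
  have tA : Tendsto ΦA (𝓝 B) (𝓝 A) := by
    have := cA.tendsto B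
    rwa [eA] at this
  have tM : Tendsto ΦM (𝓝 B) (𝓝 M) := by
    have := cM.tendsto B
    rwa [eM] at this
  have e1 : ∀ᶠ R in 𝓝 B, ∀ S, 0 < pmr (ΦA R) S := by
    refine eventually_all.mpr fun S => ?_
    exact (((continuous_pmr S).tendsto A).comp tA).eventually (lt_mem_nhds (h.posA S))
  have e2 : ∀ᶠ R in 𝓝 B, ∀ S, 0 < pmr (ΦM R) S := by
    refine eventually_all.mpr fun S => ?_
    exact (((continuous_pmr S).tendsto M).comp tM).eventually (lt_mem_nhds (h.posM S))
  have e3 : ∀ᶠ R in 𝓝 B, ∀ K i j, i ∉ K → j ∉ K → lev i < lev j →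
      0 < ppr (ΦM R) K i j * ppr (ΦA R) K j i := by
    refine eventually_all.mpr fun K => eventually_all.mpr fun i => eventually_all.mpr fun j => ?_
    by_cases h' : i ∉ K ∧ j ∉ K ∧ lev i < lev j
    · have hij : i ≠ j := by
        rintro rfl
        exact lt_irrefl _ h'.2.2
      have h1 := (h.q' h'.1 h'.2.1 hij).pos (hc K i j h'.1 h'.2.1 h'.2.2)
      have t := (((continuous_ppr K i j).tendsto M).comp tM).mul
        (((continuous_ppr K j i).tendsto A).comp tA)
      filter_upwards [t.eventually (lt_mem_nhds h1)] with R hR _ _ _ using hR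
    · exact Eventually.of_forall fun R h1 h2 h3 => absurd ⟨h1, h2, h3⟩ h'
  have hfr : ∃ᶠ R in 𝓝 B, R ∈ {R' : Matrix (Fin n) (Fin n) ℝ | IsStrictGKK (cx R')} :=
    mem_closure_iff_frequently.mp hcl
  have hfr2 : ∃ᶠ R in 𝓝 B, cx (ΦA R) ∈ closure {B : Matrix (Fin n) (Fin n) ℂ | IsStrictGKK B} := by
    refine (hfr.and_eventually (e1.and (e2.and e3))).mono ?_
    rintro R ⟨hR, p1, p2, p3⟩
    have hR' : IsStrictGKK (cx R) := hR
    rw [isStrictGKK_iff] at hR'
    have hRp : ∀ S, 0 < pmr R S := fun S => pm_cx_pos.mp (hR'.1 S)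
    have lowA : ∀ i j, lev i < lev j → ΦA R i j = 0 := by
      intro i j hij
      simp only [hΦA, of_apply]
      rw [if_neg hij.ne, h.low i j hij]
    have uppM : ∀ i j, lev j < lev i → ΦM R i j = 0 := by
      intro i j hij
      simp only [hΦM, of_apply]
      rw [if_neg hij.ne', h.upp i j hij]
    refine strict_pair (lev := lev) (M := ΦM R) lowA uppM ?_ p1 ?_
    · intro i j hij
      simp only [hΦA, hΦM, of_apply]
      rw [if_pos hij, if_pos hij]
    · intro K i j hi hj hij hl
      rcases lt_or_eq_of_le hl with hl | hl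
      · exact p3 K i j hi hj hl
      set K' := K.filter fun k => lev k = lev i with hK'
      have hi' : i ∉ K' := fun h' => hi (mem_filter.mp h').1
      have hj' : j ∉ K' := fun h' => hj (mem_filter.mp h').1
      have s1 : scr (ΦM R) K i j = scr R K' i j := by
        have f := Low.filter (low_dual uppM) p2 K i j hi hj (congrArg _ hl)
        rw [f]
        have hfe : (K.filter fun k => OrderDual.toDual (lev k) = OrderDual.toDual (lev i)) = K' := rfl
        rw [hfe]
        refine scr_congr fun x hx y hy => ?_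
        have hx' : lev x = lev i := by
          rcases mem_insert.mp hx with h' | h'
          · rw [h']
          · exact (mem_filter.mp h').2
        have hy' : lev y = lev i := by
          rcases mem_insert.mp hy with h' | h'
          · rw [h', hl]
          · exact (mem_filter.mp h').2
        simp only [hΦM, of_apply]
        rw [if_pos (hx'.trans hy'.symm)]
      have s2 : scr (ΦA R) K j i = scr R K' j i := by
        have f := Low.filter (lev := lev) lowA p1 K j i hj hi hl.symm
        rw [f]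
        have hfe : (K.filter fun k => lev k = lev j) = K' := by rw [hK', hl]
        rw [hfe]
        refine scr_congr fun x hx y hy => ?_
        have hx' : lev x = lev i := by
          rcases mem_insert.mp hx with h' | h'
          · rw [h', hl]
          · exact (mem_filter.mp h').2
        have hy' : lev y = lev i := by
          rcases mem_insert.mp hy with h' | h'
          · rw [h']
          · exact (mem_filter.mp h').2
        simp only [hΦA, of_apply]
        rw [if_pos (hx'.trans hy'.symm)]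
      have hap := hR'.2 K' i j hi' hj' hij
      rw [ap_cx_pos hRp hi' hj' hij] at hap
      rw [ppr_eq (p1 K).ne', ppr_eq (p2 K).ne', s1, s2]
      have e : pmr (ΦM R) K * scr R K' i j * (pmr (ΦA R) K * scr R K' j i)
          = (pmr (ΦM R) K * pmr (ΦA R) K) * (scr R K' i j * scr R K' j i) := by ring
      rw [e]
      exact mul_pos (mul_pos (p2 K) (p1 K)) hap
  have := mem_closure_of_frequently_of_tendsto hfr2 ((continuous_cx.tendsto A).comp tA)
  rwa [closure_closure] at this

/-! ### first phase: zeros between different levels -/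

/-- the number of zeros between different levels -/
noncomputable def zcr (lev : Fin n → ℕ) (M : Matrix (Fin n) (Fin n) ℝ) : ℕ := by
  classical
  exact (univ.filter fun x : Finset (Fin n) × Fin n × Fin n =>
    x.2.1 ∉ x.1 ∧ x.2.2 ∉ x.1 ∧ lev x.2.1 < lev x.2.2 ∧ ppr M x.1 x.2.1 x.2.2 = 0).card

theorem zcr_lt {G : ℝ → Matrix (Fin n) (Fin n) ℝ} (hG : Tendsto G (𝓝[>] 0) (𝓝 M))
    {K₀ : Finset (Fin n)} {i₀ j₀ : Fin n} (hi : i₀ ∉ K₀)
    (hj : j₀ ∉ K₀) (hij : lev i₀ < lev j₀) (h0 : ppr M K₀ i₀ j₀ = 0)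
    (hne : ∀ᶠ ε : ℝ in 𝓝[>] (0:ℝ), ppr (G ε) K₀ i₀ j₀ ≠ 0) :
    ∀ᶠ ε : ℝ in 𝓝[>] (0:ℝ), zcr lev (G ε) < zcr lev M := by
  classical
  have h1 : ∀ᶠ ε : ℝ in 𝓝[>] (0:ℝ), ∀ K i j, ppr M K i j ≠ 0 → ppr (G ε) K i j ≠ 0 := by
    refine eventually_all.mpr fun K => eventually_all.mpr fun i => eventually_all.mpr fun j => ?_
    by_cases h0 : ppr M K i j = 0
    · exact Eventually.of_forall fun ε h => absurd h0 h
    filter_upwards [(((continuous_ppr K i j).tendsto M).comp hG).eventually_ne h0] with ε h _ using h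
  filter_upwards [h1, hne] with ε e1 e2
  unfold zcr
  refine card_lt_card ?_
  rw [Finset.ssubset_iff_of_subset]
  · refine ⟨(K₀, i₀, j₀), ?_, ?_⟩
    · simp [hi, hj, hij, h0]
    · simp [e2]
  · intro x hx
    simp only [mem_filter, mem_univ, true_and] at hx ⊢
    refine ⟨hx.1, hx.2.1, hx.2.2.1, ?_⟩
    by_contra h
    exact e1 _ _ _ h hx.2.2.2

theorem Pair.step (h : Pair lev A M) {F G : ℝ → Matrix (Fin n) (Fin n) ℝ}
    (hF : Tendsto F (𝓝[>] 0) (𝓝 A)) (hG : Tendsto G (𝓝[>] 0) (𝓝 M))
    (hl : ∀ ε i j, lev i < lev j → F ε i j = 0) (hu : ∀ ε i j, lev j < lev i → G ε i j = 0)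
    (he : ∀ ε i j, lev i = lev j → F ε i j = G ε i j)
    (hz : ∀ K i j, i ∉ K → j ∉ K → i ≠ j → ppr M K i j = 0 → ppr A K j i = 0 →
      ∀ᶠ ε : ℝ in 𝓝[>] (0:ℝ), Q (ppr (G ε) K i j) (ppr (F ε) K j i)) :
    ∀ᶠ ε : ℝ in 𝓝[>] (0:ℝ), Pair lev (F ε) (G ε) := by
  have e1 : ∀ᶠ ε : ℝ in 𝓝[>] (0:ℝ), ∀ S, 0 < pmr (F ε) S := by
    refine eventually_all.mpr fun S => ?_
    exact (((continuous_pmr S).tendsto A).comp hF).eventually (lt_mem_nhds (h.posA S))
  have e2 : ∀ᶠ ε : ℝ in 𝓝[>] (0:ℝ), ∀ S, 0 < pmr (G ε) S := by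
    refine eventually_all.mpr fun S => ?_
    exact (((continuous_pmr S).tendsto M).comp hG).eventually (lt_mem_nhds (h.posM S))
  have e3 : ∀ᶠ ε : ℝ in 𝓝[>] (0:ℝ), ∀ K i j, i ∉ K → j ∉ K → i ≠ j → lev i ≤ lev j →
      Q (ppr (G ε) K i j) (ppr (F ε) K j i) := by
    refine eventually_all.mpr fun K => eventually_all.mpr fun i => eventually_all.mpr fun j => ?_
    by_cases h' : i ∉ K ∧ j ∉ K ∧ i ≠ j ∧ lev i ≤ lev j
    swap
    · exact Eventually.of_forall fun ε h1 h2 h3 h4 => absurd ⟨h1, h2, h3, h4⟩ h'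
    obtain ⟨hi, hj, hij, hlv⟩ := h'
    have hq := h.q' hi hj hij
    by_cases h0 : ppr M K i j = 0
    · filter_upwards [hz K i j hi hj hij h0 (hq.2.mp h0)] with ε hε _ _ _ _ using hε
    · have h1 := hq.pos h0
      have t := (((continuous_ppr K i j).tendsto M).comp hG).mul
        (((continuous_ppr K j i).tendsto A).comp hF)
      filter_upwards [t.eventually (lt_mem_nhds h1)] with ε hε _ _ _ _ using Q.of_pos hε
  filter_upwards [e1, e2, e3] with ε h1 h2 h3
  exact ⟨hl ε, hu ε, he ε, h1, h2, h3⟩

theorem Pair.step_dgr (h : Pair lev A M) (k : Fin n) :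
    ∀ᶠ ε : ℝ in 𝓝[>] (0:ℝ), Pair lev (dgr A k ε) (dgr M k ε) := by
  refine h.step (tendsto_dgr A k) (tendsto_dgr M k) ?_ ?_ ?_ ?_
  · intro ε i j hij
    rw [dgr_apply, h.low i j hij, if_neg, add_zero]
    rintro ⟨rfl, rfl⟩
    exact lt_irrefl _ hij
  · intro ε i j hij
    rw [dgr_apply, h.upp i j hij, if_neg, add_zero]
    rintro ⟨rfl, rfl⟩
    exact lt_irrefl _ hij
  · intro ε i j hij
    rw [dgr_apply, dgr_apply, h.eq i j hij]
  · intro K i j hi hj hij h0 h0'
    refine Eventually.of_forall fun ε => ?_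
    by_cases hk : k ∈ K
    · have hi' : i ≠ k := fun h => hi (h ▸ hk)
      have hj' : j ≠ k := fun h => hj (h ▸ hk)
      have r1 := ppr_dgr_insert M ε (notMem_erase k K) (h.posM _).ne' hi' hj'
      have r2 := ppr_dgr_insert A ε (notMem_erase k K) (h.posA _).ne' hj' hi'
      rw [insert_erase hk, h0, zero_add] at r1
      rw [insert_erase hk, h0', zero_add] at r2
      rw [r1, r2]
      exact (h.q' (fun h => hi (mem_of_mem_erase h)) (fun h => hj (mem_of_mem_erase h)) hij).smul' ε
    · rw [ppr_dgr_notMem M _ hk (h.posM _).ne' hij, ppr_dgr_notMem A _ hk (h.posA _).ne' hij.symm, h0, h0']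
      exact Q.zero

theorem Pair.step_rkr (h : Pair lev A M) (k : Fin n) :
    ∀ᶠ ε : ℝ in 𝓝[>] (0:ℝ), Pair lev (rkr A k ε) (rkr M k ε) := by
  refine h.step (tendsto_rkr A k) (tendsto_rkr M k) ?_ ?_ ?_ ?_
  · intro ε i j hij
    rw [rkr_apply, h.low i j hij]
    rcases lt_or_ge (lev i) (lev k) with h' | h'
    · rw [h.low i k h']; ring
    · rw [h.low k j (h'.trans_lt hij)]; ring
  · intro ε i j hij
    rw [rkr_apply, h.upp i j hij]
    rcases lt_or_ge (lev j) (lev k) with h' | h'
    · rw [h.upp k j h']; ring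
    · rw [h.upp i k (h'.trans_lt hij)]; ring
  · intro ε i j hij
    rw [rkr_apply, rkr_apply, h.eq i j hij]
    rcases lt_trichotomy (lev i) (lev k) with h' | h' | h'
    · rw [h.low i k h', h.upp k j (hij ▸ h')]; ring
    · rw [h.eq i k h', h.eq k j (h'.symm.trans hij)]
    · rw [h.low k j (hij ▸ h'), h.upp i k h']; ring
  · intro K i j hi hj hij h0 h0'
    refine Eventually.of_forall fun ε => ?_
    by_cases hk : k ∈ K ∨ k = i ∨ k = j
    · rw [ppr_rkr_mem M ε hk, ppr_rkr_mem A ε (by tauto), h0, h0', mul_zero, mul_zero]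
      exact Q.zero
    · push Not at hk
      obtain ⟨hk, hki, hkj⟩ := hk
      have hiK : i ∉ insert k K := by
        simp only [mem_insert, not_or]; exact ⟨hki.symm, hi⟩
      have hjK : j ∉ insert k K := by
        simp only [mem_insert, not_or]; exact ⟨hkj.symm, hj⟩
      rw [ppr_rkr_notMem M ε hk, ppr_rkr_notMem A ε hk, h0, h0', mul_zero, mul_zero, zero_add, zero_add]
      exact (h.q' hiK hjK hij).smul' ε

/-- the changed minors after adding `ε` at `(a, b)` in `M` and at `(b, a)` in `A` -/
theorem Pair.er_shape (h : Pair lev A M) {a b : Fin n} (hab : lev a < lev b) (ε : ℝ)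
    {K : Finset (Fin n)} {i j : Fin n} (hi : i ∉ K) (hj : j ∉ K) (hij : i ≠ j) :
    ∃ x y, Q x y ∧ ppr (er M a b ε) K i j = ppr M K i j + ε * x ∧
      ppr (er A b a ε) K j i = ppr A K j i + ε * y := by
  have hne : a ≠ b := by
    rintro rfl
    exact lt_irrefl _ hab
  by_cases ha : a ∈ K
  · have hia : i ≠ a := fun e => hi (e ▸ ha)
    have hja : j ≠ a := fun e => hj (e ▸ ha)
    by_cases hb : b ∈ K
    · have hib : i ≠ b := fun e => hi (e ▸ hb)
      have hjb : j ≠ b := fun e => hj (e ▸ hb)
      set K₀ := (K.erase a).erase b with hK₀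
      have ha0 : a ∉ K₀ := fun e => notMem_erase a K (mem_of_mem_erase e)
      have hb0 : b ∉ K₀ := notMem_erase b _
      have hi0 : i ∉ K₀ := fun e => hi (mem_of_mem_erase (mem_of_mem_erase e))
      have hj0 : j ∉ K₀ := fun e => hj (mem_of_mem_erase (mem_of_mem_erase e))
      have hKe : K = insert a (insert b K₀) := by
        rw [hK₀, insert_erase (mem_erase.mpr ⟨hne.symm, hb⟩), insert_erase ha]
      have hpM : pmr (er M a b ε) K₀ = pmr M K₀ := pmr_er ε (Or.inl ha0)
      have hpA : pmr (er A b a ε) K₀ = pmr A K₀ := pmr_er ε (Or.inl hb0)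
      have nM : pmr (er M a b ε) K₀ ≠ 0 := by rw [hpM]; exact (h.posM _).ne'
      have nA : pmr (er A b a ε) K₀ ≠ 0 := by rw [hpA]; exact (h.posA _).ne'
      have z1 : scr M K₀ b a = 0 := scr_upp h.upp h.posM hb0 ha0 hab
      have z2 : scr A K₀ a b = 0 := scr_low h.low h.posA ha0 hb0 hab
      refine ⟨pmr M K₀ * (scr M K₀ b j * scr M K₀ i a), pmr A K₀ * (scr A K₀ j b * scr A K₀ a i),
        ((h.qs hb0 hj0 hjb.symm).mul (h.qs hi0 ha0 hia)).smul (h.posM _) (h.posA _), ?_, ?_⟩
      · rw [hKe, ppr_insert_insert nM ha0 hb0 hne, ppr_insert_insert (h.posM _).ne' ha0 hb0 hne, hpM]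
        simp only [scr_er ε (h.posM K₀).ne' ha0 hb0, z1, hne, hne.symm, hja, hjb, hia, hib,
          and_false, false_and, and_self, if_true, if_false]
        ring
      · rw [hKe, ppr_insert_insert nA ha0 hb0 hne, ppr_insert_insert (h.posA _).ne' ha0 hb0 hne, hpA]
        simp only [scr_er ε (h.posA K₀).ne' hb0 ha0, z2, hne, hne.symm, hja, hjb, hia, hib,
          and_false, false_and, and_self, if_true, if_false]
        ring
    · by_cases hjb : j = b
      · subst hjb
        set K₀ := K.erase a with hK₀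
        have ha0 : a ∉ K₀ := notMem_erase a K
        have hb0 : j ∉ K₀ := fun e => hb (mem_of_mem_erase e)
        have hi0 : i ∉ K₀ := fun e => hi (mem_of_mem_erase e)
        have hKe : K = insert a K₀ := by rw [hK₀, insert_erase ha]
        have hpM : pmr (er M a j ε) K₀ = pmr M K₀ := pmr_er ε (Or.inl ha0)
        have hpA : pmr (er A j a ε) K₀ = pmr A K₀ := pmr_er ε (Or.inl hb0)
        have nM : pmr (er M a j ε) K₀ ≠ 0 := by rw [hpM]; exact (h.posM _).ne'
        have nA : pmr (er A j a ε) K₀ ≠ 0 := by rw [hpA]; exact (h.posA _).ne'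
        refine ⟨-(pmr M K₀ * scr M K₀ i a), -(pmr A K₀ * scr A K₀ a i),
          ((h.qs hi0 ha0 hia).smul (h.posM _) (h.posA _)).neg, ?_, ?_⟩
        · rw [hKe, ppr_insert nM ha0, ppr_insert (h.posM _).ne' ha0, hpM]
          simp only [scr_er ε (h.posM K₀).ne' ha0 hb0, hne, hne.symm, hia, hij,
            and_false, false_and, and_self, if_true, if_false]
          ring
        · rw [hKe, ppr_insert nA ha0, ppr_insert (h.posA _).ne' ha0, hpA]
          simp only [scr_er ε (h.posA K₀).ne' hb0 ha0, hne, hne.symm, hia, hij,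
            and_false, false_and, and_self, if_true, if_false]
          ring
      · refine ⟨0, 0, Q.zero, ?_, ?_⟩
        · rw [mul_zero, add_zero]
          refine ppr_congr fun x _ y hy => er_of_ne (Or.inr ?_)
          rintro rfl
          rcases mem_insert.mp hy with e | e
          · exact hjb e.symm
          · exact hb e
        · rw [mul_zero, add_zero]
          refine ppr_congr fun x hx y _ => er_of_ne (Or.inl ?_)
          rintro rfl
          rcases mem_insert.mp hx with e | e
          · exact hjb e.symm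
          · exact hb e
  · by_cases hia : i = a
    · subst hia
      by_cases hb : b ∈ K
      · have hjb : j ≠ b := fun e => hj (e ▸ hb)
        set K₀ := K.erase b with hK₀
        have hb0 : b ∉ K₀ := notMem_erase b K
        have ha0 : i ∉ K₀ := fun e => hi (mem_of_mem_erase e)
        have hj0 : j ∉ K₀ := fun e => hj (mem_of_mem_erase e)
        have hKe : K = insert b K₀ := by rw [hK₀, insert_erase hb]
        have hpM : pmr (er M i b ε) K₀ = pmr M K₀ := pmr_er ε (Or.inl ha0)
        have hpA : pmr (er A b i ε) K₀ = pmr A K₀ := pmr_er ε (Or.inl hb0)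
        have nM : pmr (er M i b ε) K₀ ≠ 0 := by rw [hpM]; exact (h.posM _).ne'
        have nA : pmr (er A b i ε) K₀ ≠ 0 := by rw [hpA]; exact (h.posA _).ne'
        refine ⟨-(pmr M K₀ * scr M K₀ b j), -(pmr A K₀ * scr A K₀ j b),
          ((h.qs hb0 hj0 hjb.symm).smul (h.posM _) (h.posA _)).neg, ?_, ?_⟩
        · rw [hKe, ppr_insert nM hb0, ppr_insert (h.posM _).ne' hb0, hpM]
          simp only [scr_er ε (h.posM K₀).ne' ha0 hb0, hne, hne.symm, hjb, hij, hij.symm,
            and_false, false_and, and_self, if_true, if_false]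
          ring
        · rw [hKe, ppr_insert nA hb0, ppr_insert (h.posA _).ne' hb0, hpA]
          simp only [scr_er ε (h.posA K₀).ne' hb0 ha0, hne, hne.symm, hjb, hij, hij.symm,
            and_false, false_and, and_self, if_true, if_false]
          ring
      · by_cases hjb : j = b
        · subst hjb
          have hpM : pmr (er M i j ε) K = pmr M K := pmr_er ε (Or.inl ha)
          have hpA : pmr (er A j i ε) K = pmr A K := pmr_er ε (Or.inl hb)
          have nM : pmr (er M i j ε) K ≠ 0 := by rw [hpM]; exact (h.posM _).ne'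
          have nA : pmr (er A j i ε) K ≠ 0 := by rw [hpA]; exact (h.posA _).ne'
          refine ⟨pmr M K, pmr A K, Q.of_pos (mul_pos (h.posM _) (h.posA _)), ?_, ?_⟩
          · rw [ppr_eq nM, ppr_eq (h.posM _).ne', hpM, scr_er ε (h.posM K).ne' ha hb, if_pos ⟨rfl, rfl⟩]
            ring
          · rw [ppr_eq nA, ppr_eq (h.posA _).ne', hpA, scr_er ε (h.posA K).ne' hb ha, if_pos ⟨rfl, rfl⟩]
            ring
        · refine ⟨0, 0, Q.zero, ?_, ?_⟩
          · rw [mul_zero, add_zero]
            refine ppr_congr fun x _ y hy => er_of_ne (Or.inr ?_)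
            rintro rfl
            rcases mem_insert.mp hy with e | e
            · exact hjb e.symm
            · exact hb e
          · rw [mul_zero, add_zero]
            refine ppr_congr fun x hx y _ => er_of_ne (Or.inl ?_)
            rintro rfl
            rcases mem_insert.mp hx with e | e
            · exact hjb e.symm
            · exact hb e
    · refine ⟨0, 0, Q.zero, ?_, ?_⟩
      · rw [mul_zero, add_zero]
        refine ppr_congr fun x hx y _ => er_of_ne (Or.inl ?_)
        rintro rfl
        rcases mem_insert.mp hx with e | e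
        · exact hia e.symm
        · exact ha e
      · rw [mul_zero, add_zero]
        refine ppr_congr fun x _ y hy => er_of_ne (Or.inr ?_)
        rintro rfl
        rcases mem_insert.mp hy with e | e
        · exact hia e.symm
        · exact ha e

theorem Pair.step_er (h : Pair lev A M) {a b : Fin n} (hab : lev a < lev b) :
    ∀ᶠ ε : ℝ in 𝓝[>] (0:ℝ), Pair lev (er A b a ε) (er M a b ε) := by
  have hne : a ≠ b := by
    rintro rfl
    exact lt_irrefl _ hab
  refine h.step (tendsto_er A b a) (tendsto_er M a b) ?_ ?_ ?_ ?_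
  · intro ε i j hij
    rw [er_of_ne, h.low i j hij]
    by_contra h'
    push Not at h'
    obtain ⟨rfl, rfl⟩ := h'
    exact lt_asymm hab hij
  · intro ε i j hij
    rw [er_of_ne, h.upp i j hij]
    by_contra h'
    push Not at h'
    obtain ⟨rfl, rfl⟩ := h'
    exact lt_asymm hab hij
  · intro ε i j hij
    rw [er_of_ne, er_of_ne, h.eq i j hij]
    · by_contra h'
      push Not at h'
      obtain ⟨rfl, rfl⟩ := h'
      exact hab.ne hij
    · by_contra h'
      push Not at h'
      obtain ⟨rfl, rfl⟩ := h'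
      exact hab.ne' hij
  · intro K i j hi hj hij h0 h0'
    refine Eventually.of_forall fun ε => ?_
    obtain ⟨x, y, hq, h1, h2⟩ := h.er_shape hab ε hi hj hij
    rw [h1, h2, h0, h0', zero_add, zero_add]
    exact hq.smul' ε

theorem Pair.mem_closure_aux (z : ℕ) : ∀ A M : Matrix (Fin n) (Fin n) ℝ, Pair lev A M → zcr lev M ≤ z →
    cx A ∈ closure {B : Matrix (Fin n) (Fin n) ℂ | IsStrictGKK B} := by
  classical
  induction z with
  | zero =>
    intro A M h hz
    refine h.of_cross fun K i j hi hj hij h0 => ?_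
    have hz' := Nat.le_zero.mp hz
    unfold zcr at hz'
    have : ((K, i, j) : Finset (Fin n) × Fin n × Fin n) ∈ (univ.filter fun x : Finset (Fin n) × Fin n × Fin n =>
      x.2.1 ∉ x.1 ∧ x.2.2 ∉ x.1 ∧ lev x.2.1 < lev x.2.2 ∧ ppr M x.1 x.2.1 x.2.2 = 0) := by
      simp [hi, hj, hij, h0]
    rw [card_eq_zero.mp hz'] at this
    exact absurd this (notMem_empty _)
  | succ z ih =>
    intro A M h hz
    rcases Nat.lt_or_ge z (zcr lev M) with hlt | hle
    swap
    · exact ih A M h hle
    have close : ∀ F G : ℝ → Matrix (Fin n) (Fin n) ℝ, Tendsto F (𝓝[>] 0) (𝓝 A) →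
        (∀ᶠ ε : ℝ in 𝓝[>] (0:ℝ), Pair lev (F ε) (G ε)) →
        (∀ᶠ ε : ℝ in 𝓝[>] (0:ℝ), zcr lev (G ε) < zcr lev M) →
        cx A ∈ closure {B : Matrix (Fin n) (Fin n) ℂ | IsStrictGKK B} := by
      intro F G hF h1 h2
      have h3 : ∀ᶠ ε : ℝ in 𝓝[>] (0:ℝ),
          cx (F ε) ∈ closure {B : Matrix (Fin n) (Fin n) ℂ | IsStrictGKK B} := by
        filter_upwards [h1, h2] with ε e1 e2
        exact ih _ _ e1 (by omega)
      have := mem_closure_of_tendsto ((continuous_cx.tendsto A).comp hF) h3
      rwa [closure_closure] at this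
    have e0 : ∀ᶠ ε : ℝ in 𝓝[>] (0:ℝ), 0 < ε := self_mem_nhdsWithin
    by_cases c1 : ∃ (K : Finset (Fin n)) (k i j : Fin n), k ∉ K ∧ i ∉ insert k K ∧ j ∉ insert k K ∧
        lev i < lev j ∧ ppr M (insert k K) i j = 0 ∧ ppr M K i j ≠ 0
    · obtain ⟨K, k, i, j, hk, hi, hj, hij, h0, h1⟩ := c1
      refine close _ _ (tendsto_dgr A k) (h.step_dgr k) (zcr_lt (tendsto_dgr M k) hi hj hij h0 ?_)
      filter_upwards [e0] with ε hε
      rw [ppr_dgr_insert M _ hk (h.posM _).ne' (fun e => hi (by rw [e]; exact mem_insert_self _ _))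
        (fun e => hj (by rw [e]; exact mem_insert_self _ _)), h0, zero_add]
      exact mul_ne_zero hε.ne' h1
    by_cases c2 : ∃ (K : Finset (Fin n)) (k i j : Fin n), k ∉ K ∧ i ∉ insert k K ∧ j ∉ insert k K ∧
        lev i < lev j ∧ ppr M K i j = 0 ∧ ppr M (insert k K) i j ≠ 0
    · obtain ⟨K, k, i, j, hk, hi, hj, hij, h0, h1⟩ := c2
      have hi' : i ∉ K := fun e => hi (mem_insert_of_mem e)
      have hj' : j ∉ K := fun e => hj (mem_insert_of_mem e)
      refine close _ _ (tendsto_rkr A k) (h.step_rkr k) (zcr_lt (tendsto_rkr M k) hi' hj' hij h0 ?_)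
      filter_upwards [e0] with ε hε
      rw [ppr_rkr_notMem M _ hk, h0, mul_zero, zero_add]
      exact mul_ne_zero hε.ne' h1
    have hf : ∀ K i j, i ∉ K → j ∉ K → lev i < lev j → (ppr M K i j = 0 ↔ M i j = 0) := by
      intro K
      induction K using Finset.induction_on with
      | empty => intro i j _ _ _; rw [ppr_empty]
      | insert k K hk ihK =>
        intro i j hi hj hij
        rw [← ihK i j (fun e => hi (mem_insert_of_mem e)) (fun e => hj (mem_insert_of_mem e)) hij]
        constructor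
        · intro h1
          by_contra h2
          exact c1 ⟨K, k, i, j, hk, hi, hj, hij, h1, h2⟩
        · intro h1
          by_contra h2
          exact c2 ⟨K, k, i, j, hk, hi, hj, hij, h1, h2⟩
    have hpos : 0 < zcr lev M := by omega
    unfold zcr at hpos
    obtain ⟨⟨K, a, b⟩, hx⟩ := card_pos.mp hpos
    simp only [mem_filter, mem_univ, true_and] at hx
    obtain ⟨ha, hb, hab, h0⟩ := hx
    have h0' : ppr M ∅ a b = 0 := by
      rw [ppr_empty]
      exact (hf K a b ha hb hab).mp h0
    refine close _ _ (tendsto_er A b a) (h.step_er hab)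
      (zcr_lt (tendsto_er M a b) (K₀ := ∅) (by simp) (by simp) hab h0' ?_)
    filter_upwards [e0] with ε hε
    rw [ppr_empty] at h0' ⊢
    rw [er_apply, h0', zero_add, if_pos ⟨rfl, rfl⟩]
    exact hε.ne'

/-- **Pair lemma**. -/
theorem Pair.mem_closure (h : Pair lev A M) :
    cx A ∈ closure {B : Matrix (Fin n) (Fin n) ℂ | IsStrictGKK B} :=
  Pair.mem_closure_aux _ A M h le_rfl

end Pool.Agent.Helper21.UV
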