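import Mathlib
import Pool.Agent.Helper21.GK.Real
import Pool.Agent.Helper85.SVG.Main

/-!
Real matrices: perturbation formulas for principal and almost principal minors; block triangular
matrices with respect to a level function; real approximation by strict GKK matrices of a real GKK
matrix with symmetric zeros.
-/

namespace Pool.Agent.Helper21.UV

open Matrix Finset Pool.Agent.Helper5.GKK Pool.Agent.Helper85.SVG Pool.Agent.Helper21.GK Filter Topology
open scoped ComplexOrder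

variable {n : ℕ}

/-! ### same sign -/

/-- `x` and `y` have the same sign (`-`, `0` or `+`). -/
def Q (x y : ℝ) : Prop := 0 ≤ x * y ∧ (x = 0 ↔ y = 0)

theorem Q.symm {x y : ℝ} (h : Q x y) : Q y x := ⟨by rw [mul_comm]; exact h.1, h.2.symm⟩

theorem Q.zero : Q 0 0 := ⟨by simp, Iff.rfl⟩

theorem Q.one : Q 1 1 := ⟨by norm_num, by norm_num⟩

theorem Q.mul {x y x' y' : ℝ} (h : Q x y) (h' : Q x' y') : Q (x * x') (y * y') := by
  refine ⟨?_, ?_⟩
  · have e : x * x' * (y * y') = (x * y) * (x' * y') := by ring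
    rw [e]
    exact mul_nonneg h.1 h'.1
  · rw [mul_eq_zero, mul_eq_zero, h.2, h'.2]

theorem Q.of_pos {x y : ℝ} (h : 0 < x * y) : Q x y := by
  refine ⟨h.le, ?_, ?_⟩
  · rintro rfl; simp at h
  · rintro rfl; simp at h

theorem Q.refl (c : ℝ) : Q c c := ⟨mul_self_nonneg c, Iff.rfl⟩

theorem Q.smul {c d x y : ℝ} (hc : 0 < c) (hd : 0 < d) (h : Q x y) : Q (c * x) (d * y) :=
  (Q.of_pos (mul_pos hc hd)).mul h

theorem Q.smul' (c : ℝ) {x y : ℝ} (h : Q x y) : Q (c * x) (c * y) := (Q.refl c).mul h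

theorem Q.neg {x y : ℝ} (h : Q x y) : Q (-x) (-y) := by
  have := h.smul' (-1)
  simpa using this

theorem Q.pos {x y : ℝ} (h : Q x y) (hx : x ≠ 0) : 0 < x * y :=
  lt_of_le_of_ne h.1 (Ne.symm (mul_ne_zero hx (fun hy => hx (h.2.mpr hy))))

theorem Q.of_smul {c d x y : ℝ} (hc : 0 < c) (hd : 0 < d) (h : Q (c * x) (d * y)) : Q x y := by
  have := h.smul (inv_pos.mpr hc) (inv_pos.mpr hd)
  rwa [inv_mul_cancel_left₀ hc.ne', inv_mul_cancel_left₀ hd.ne'] at this

/-! ### continuity -/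

theorem continuous_pmr (S : Finset (Fin n)) : Continuous fun A : Matrix (Fin n) (Fin n) ℝ => pmr A S := by
  unfold pmr
  exact (continuous_id.matrix_submatrix _ _).matrix_det

theorem continuous_ppr (K : Finset (Fin n)) (i j : Fin n) :
    Continuous fun A : Matrix (Fin n) (Fin n) ℝ => ppr A K i j := by
  unfold ppr
  exact (continuous_id.matrix_submatrix _ _).matrix_det

theorem continuous_cx : Continuous fun A : Matrix (Fin n) (Fin n) ℝ => cx A := by
  refine continuous_matrix fun i j => ?_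
  exact Complex.continuous_ofReal.comp (continuous_apply_apply i j)

/-! ### formulas -/

theorem pm_cx_ne {A : Matrix (Fin n) (Fin n) ℝ} {S : Finset (Fin n)} (h : pmr A S ≠ 0) :
    pm (cx A) S ≠ 0 := by
  rw [pm_cx]
  exact_mod_cast h

theorem ppr_empty (A : Matrix (Fin n) (Fin n) ℝ) (i j : Fin n) : ppr A ∅ i j = A i j := by
  rw [ppr_eq (by rw [pmr_empty]; exact one_ne_zero), pmr_empty, scr_empty, one_mul]

theorem ppr_congr {A B : Matrix (Fin n) (Fin n) ℝ} {K : Finset (Fin n)} {i j : Fin n}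
    (h : ∀ x ∈ insert i K, ∀ y ∈ insert j K, B x y = A x y) : ppr B K i j = ppr A K i j := by
  unfold ppr
  congr 1
  ext (x | x) (y | y)
  · exact h _ (mem_insert_of_mem x.2) _ (mem_insert_of_mem y.2)
  · exact h _ (mem_insert_of_mem x.2) _ (mem_insert_self _ _)
  · exact h _ (mem_insert_self _ _) _ (mem_insert_of_mem y.2)
  · exact h _ (mem_insert_self _ _) _ (mem_insert_self _ _)

theorem pmr_congr {A B : Matrix (Fin n) (Fin n) ℝ} {K : Finset (Fin n)}
    (h : ∀ x ∈ K, ∀ y ∈ K, B x y = A x y) : pmr B K = pmr A K := by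
  unfold pmr
  congr 1
  ext x y
  exact h _ x.2 _ y.2

theorem scr_congr {A B : Matrix (Fin n) (Fin n) ℝ} {K : Finset (Fin n)} {i j : Fin n}
    (h : ∀ x ∈ insert i K, ∀ y ∈ insert j K, B x y = A x y) : scr B K i j = scr A K i j := by
  rw [scr, scr, ppr_congr h, pmr_congr fun x hx y hy => h x (mem_insert_of_mem hx) y (mem_insert_of_mem hy)]

theorem scr_add {A B : Matrix (Fin n) (Fin n) ℝ} {K : Finset (Fin n)} (hK : pmr A K ≠ 0) {a b : Fin n}
    (hKK : ∀ x ∈ K, ∀ y ∈ K, B x y = A x y) (haK : ∀ y ∈ K, B a y = A a y)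
    (hKb : ∀ x ∈ K, B x b = A x b) : scr B K a b = scr A K a b + (B a b - A a b) := by
  have h := sc_congr (A := cx A) (B := cx B) (K := K) (a := a) (b := b)
    (fun x hx y hy => by rw [cx_apply, cx_apply, hKK x hx y hy])
    (fun y hy => by rw [cx_apply, cx_apply, haK y hy])
    (fun x hx => by rw [cx_apply, cx_apply, hKb x hx])
  have hK' : pmr B K ≠ 0 := by rwa [pmr_congr hKK]
  rw [sc_cx hK', sc_cx hK, cx_apply, cx_apply] at h
  exact_mod_cast h

theorem pmr_insert_insert {M : Matrix (Fin n) (Fin n) ℝ} {K : Finset (Fin n)} (hK : pmr M K ≠ 0)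
    {i j : Fin n} (hi : i ∉ K) (hj : j ∉ K) (hij : i ≠ j) : pmr M (insert i (insert j K)) =
      pmr M K * (scr M K i i * scr M K j j - scr M K i j * scr M K j i) := by
  have h := pm_insert_insert (cx M) K i j (pm_cx_ne hK) hi hj hij
  rw [pm_cx, pm_cx, sc_cx hK, sc_cx hK, sc_cx hK, sc_cx hK] at h
  exact_mod_cast h

theorem ppr_insert_insert {M : Matrix (Fin n) (Fin n) ℝ} {K : Finset (Fin n)} (hK : pmr M K ≠ 0)
    {a b : Fin n} (ha : a ∉ K) (hb : b ∉ K) (hab : a ≠ b) (i j : Fin n) :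
    ppr M (insert a (insert b K)) i j = pmr M K *
      (scr M K a a * scr M K b b * scr M K i j - scr M K a a * scr M K b j * scr M K i b
        - scr M K a b * scr M K b a * scr M K i j + scr M K a b * scr M K b j * scr M K i a
        + scr M K a j * scr M K b a * scr M K i b - scr M K a j * scr M K b b * scr M K i a) := by
  have h := pp_insert_insert' (cx M) (pm_cx_ne hK) ha hb hab i j
  rw [pm_cx, pp_cx] at h
  simp only [sc_cx hK] at h
  exact_mod_cast h

/-- `A + ε E_kk` -/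
noncomputable def dgr (A : Matrix (Fin n) (Fin n) ℝ) (k : Fin n) (ε : ℝ) : Matrix (Fin n) (Fin n) ℝ :=
  of fun a b => A a b + if a = k ∧ b = k then ε else 0

theorem dgr_apply (A : Matrix (Fin n) (Fin n) ℝ) (k : Fin n) (ε : ℝ) (a b : Fin n) :
    dgr A k ε a b = A a b + if a = k ∧ b = k then ε else 0 := rfl

theorem cx_dgr (A : Matrix (Fin n) (Fin n) ℝ) (k : Fin n) (ε : ℝ) :
    cx (dgr A k ε) = dg (cx A) k (ε : ℂ) := by
  ext a b
  rw [cx_apply, dgr_apply, dg_apply, cx_apply]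
  split_ifs <;> push_cast <;> rfl

theorem ppr_dgr_notMem (A : Matrix (Fin n) (Fin n) ℝ) {k : Fin n} (ε : ℝ) {K : Finset (Fin n)} (hk : k ∉ K)
    (hK : pmr A K ≠ 0) {i j : Fin n} (hij : i ≠ j) : ppr (dgr A k ε) K i j = ppr A K i j := by
  have h := pp_dg_notMem (cx A) (ε : ℂ) hk (pm_cx_ne hK) hij
  rw [← cx_dgr, pp_cx, pp_cx] at h
  exact_mod_cast h

theorem ppr_dgr_insert (A : Matrix (Fin n) (Fin n) ℝ) {k : Fin n} (ε : ℝ) {K : Finset (Fin n)} (hk : k ∉ K)
    (hK : pmr A K ≠ 0) {i j : Fin n} (hi : i ≠ k) (hj : j ≠ k) :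
    ppr (dgr A k ε) (insert k K) i j = ppr A (insert k K) i j + ε * ppr A K i j := by
  have h := pp_dg_insert (cx A) (ε : ℂ) hk (pm_cx_ne hK) hi hj
  rw [← cx_dgr, pp_cx, pp_cx, pp_cx] at h
  exact_mod_cast h

/-- `A - ε A e_k e_kᵀ A` -/
noncomputable def rkr (A : Matrix (Fin n) (Fin n) ℝ) (k : Fin n) (ε : ℝ) : Matrix (Fin n) (Fin n) ℝ :=
  of fun a b => A a b - ε * A a k * A k b

theorem rkr_apply (A : Matrix (Fin n) (Fin n) ℝ) (k : Fin n) (ε : ℝ) (a b : Fin n) :
    rkr A k ε a b = A a b - ε * A a k * A k b := rfl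

theorem cx_rkr (A : Matrix (Fin n) (Fin n) ℝ) (k : Fin n) (ε : ℝ) :
    cx (rkr A k ε) = rk (cx A) k (ε : ℂ) := by
  ext a b
  simp only [cx_apply, rkr_apply, rk, of_apply]
  push_cast
  rfl

theorem ppr_rkr_mem (A : Matrix (Fin n) (Fin n) ℝ) {k : Fin n} (ε : ℝ) {K : Finset (Fin n)} {i j : Fin n}
    (hk : k ∈ K ∨ k = i ∨ k = j) : ppr (rkr A k ε) K i j = (1 - ε * A k k) * ppr A K i j := by
  have h := pp_rk_mem (cx A) (ε : ℂ) hk
  rw [← cx_rkr, pp_cx, pp_cx, cx_apply] at h
  exact_mod_cast h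

theorem ppr_rkr_notMem (A : Matrix (Fin n) (Fin n) ℝ) {k : Fin n} (ε : ℝ) {K : Finset (Fin n)}
    {i j : Fin n} (hk : k ∉ K) :
    ppr (rkr A k ε) K i j = (1 - ε * A k k) * ppr A K i j + ε * ppr A (insert k K) i j := by
  have h := pp_rk_notMem (cx A) (i := i) (j := j) (ε : ℂ) hk
  rw [← cx_rkr, pp_cx, pp_cx, pp_cx, cx_apply] at h
  exact_mod_cast h

/-- `A + ε (E_ab + E_ba)` -/
noncomputable def cnr (A : Matrix (Fin n) (Fin n) ℝ) (a b : Fin n) (ε : ℝ) : Matrix (Fin n) (Fin n) ℝ :=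
  of fun x y => A x y + if (x = a ∧ y = b) ∨ (x = b ∧ y = a) then ε else 0

theorem cx_cnr (A : Matrix (Fin n) (Fin n) ℝ) (a b : Fin n) (ε : ℝ) :
    cx (cnr A a b ε) = cn (cx A) a b (ε : ℂ) := by
  ext x y
  rw [cx_apply, cn_apply, cx_apply, cnr, of_apply]
  split_ifs <;> push_cast <;> rfl

/-- `A + ε E_ab` -/
noncomputable def er (A : Matrix (Fin n) (Fin n) ℝ) (a b : Fin n) (ε : ℝ) : Matrix (Fin n) (Fin n) ℝ :=
  of fun x y => A x y + if x = a ∧ y = b then ε else 0

theorem er_apply (A : Matrix (Fin n) (Fin n) ℝ) (a b : Fin n) (ε : ℝ) (x y : Fin n) :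
    er A a b ε x y = A x y + if x = a ∧ y = b then ε else 0 := rfl

theorem er_of_ne {A : Matrix (Fin n) (Fin n) ℝ} {a b : Fin n} {ε : ℝ} {x y : Fin n}
    (h : x ≠ a ∨ y ≠ b) : er A a b ε x y = A x y := by
  rw [er_apply, if_neg, add_zero]
  rintro ⟨h1, h2⟩
  rcases h with h | h
  · exact h h1
  · exact h h2

theorem pmr_er {A : Matrix (Fin n) (Fin n) ℝ} {a b : Fin n} (ε : ℝ) {S : Finset (Fin n)}
    (h : a ∉ S ∨ b ∉ S) : pmr (er A a b ε) S = pmr A S := by
  refine pmr_congr fun x hx y hy => er_of_ne ?_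
  rcases h with h | h
  · exact Or.inl fun e => h (e ▸ hx)
  · exact Or.inr fun e => h (e ▸ hy)

theorem scr_er {A : Matrix (Fin n) (Fin n) ℝ} {a b : Fin n} (ε : ℝ) {S : Finset (Fin n)}
    (hS : pmr A S ≠ 0) (ha : a ∉ S) (hb : b ∉ S) (x y : Fin n) :
    scr (er A a b ε) S x y = scr A S x y + if x = a ∧ y = b then ε else 0 := by
  rw [scr_add (A := A) (B := er A a b ε) hS, er_apply]
  · ring
  · intro x hx y _
    exact er_of_ne (Or.inl fun e => ha (e ▸ hx))
  · intro y hy
    exact er_of_ne (Or.inr fun e => hb (e ▸ hy))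
  · intro x hx
    exact er_of_ne (Or.inl fun e => ha (e ▸ hx))

theorem tendsto_dgr (A : Matrix (Fin n) (Fin n) ℝ) (k : Fin n) :
    Tendsto (fun ε : ℝ => dgr A k ε) (𝓝[>] 0) (𝓝 A) := by
  have hc : Continuous fun ε : ℝ => dgr A k ε := by
    refine continuous_matrix fun i j => ?_
    simp only [dgr_apply]
    by_cases h : i = k ∧ j = k
    · simp only [if_pos h]; fun_prop
    · simp only [if_neg h]; fun_prop
  have h0 : dgr A k 0 = A := by
    ext i j
    rw [dgr_apply]; simp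
  have := hc.tendsto 0
  rw [h0] at this
  exact this.mono_left nhdsWithin_le_nhds

theorem tendsto_rkr (A : Matrix (Fin n) (Fin n) ℝ) (k : Fin n) :
    Tendsto (fun ε : ℝ => rkr A k ε) (𝓝[>] 0) (𝓝 A) := by
  have hc : Continuous fun ε : ℝ => rkr A k ε := by
    refine continuous_matrix fun i j => ?_
    simp only [rkr_apply]
    fun_prop
  have h0 : rkr A k 0 = A := by
    ext i j
    rw [rkr_apply]; simp
  have := hc.tendsto 0
  rw [h0] at this
  exact this.mono_left nhdsWithin_le_nhds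

theorem tendsto_er (A : Matrix (Fin n) (Fin n) ℝ) (a b : Fin n) :
    Tendsto (fun ε : ℝ => er A a b ε) (𝓝[>] 0) (𝓝 A) := by
  have hc : Continuous fun ε : ℝ => er A a b ε := by
    refine continuous_matrix fun i j => ?_
    simp only [er_apply]
    by_cases h : i = a ∧ j = b
    · simp only [if_pos h]; fun_prop
    · simp only [if_neg h]; fun_prop
  have h0 : er A a b 0 = A := by
    ext i j
    rw [er_apply]; simp
  have := hc.tendsto 0
  rw [h0] at this
  exact this.mono_left nhdsWithin_le_nhds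

theorem tendsto_cnr (A : Matrix (Fin n) (Fin n) ℝ) (a b : Fin n) :
    Tendsto (fun ε : ℝ => cnr A a b ε) (𝓝[>] 0) (𝓝 A) := by
  have hc : Continuous fun ε : ℝ => cnr A a b ε := by
    refine continuous_matrix fun i j => ?_
    simp only [cnr, of_apply]
    by_cases h : (i = a ∧ j = b) ∨ (i = b ∧ j = a)
    · simp only [if_pos h]; fun_prop
    · simp only [if_neg h]; fun_prop
  have h0 : cnr A a b 0 = A := by
    ext i j
    simp [cnr]
  have := hc.tendsto 0
  rw [h0] at this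
  exact this.mono_left nhdsWithin_le_nhds

/-! ### real approximation -/

theorem real_mem_closure_aux (z : ℕ) : ∀ c : ℝ, 1 ≤ c → ∀ R : Matrix (Fin n) (Fin n) ℝ,
    W c (cx R) → zc (cx R) ≤ z → R ∈ closure {R' : Matrix (Fin n) (Fin n) ℝ | IsStrictGKK (cx R')} := by
  induction z with
  | zero =>
    intro c _ R hW hz
    exact subset_closure (strict_of_zc hW (Nat.le_zero.mp hz))
  | succ z ih =>
    intro c hc R hW hz
    have hc2 : (1:ℝ) ≤ 2 * c ^ 2 := by nlinarith
    have hc' := ih (2 * c ^ 2) hc2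
    rcases Nat.lt_or_ge z (zc (cx R)) with hlt | hle
    swap
    · exact hc' R (hW.mono (by nlinarith)) hle
    have hzc : zc (cx R) = z + 1 := by omega
    have hc1 : 2 * c ≤ 2 * c ^ 2 := by nlinarith
    have close : ∀ F : ℝ → Matrix (Fin n) (Fin n) ℝ, Tendsto F (𝓝[>] 0) (𝓝 R) →
        (∀ᶠ ε : ℝ in 𝓝[>] (0:ℝ), W (2 * c ^ 2) (cx (F ε))) →
        (∀ᶠ ε : ℝ in 𝓝[>] (0:ℝ), zc (cx (F ε)) < zc (cx R)) →
        R ∈ closure {R' : Matrix (Fin n) (Fin n) ℝ | IsStrictGKK (cx R')} := by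
      intro F hF h1 h2
      have h3 : ∀ᶠ ε : ℝ in 𝓝[>] (0:ℝ),
          F ε ∈ closure {R' : Matrix (Fin n) (Fin n) ℝ | IsStrictGKK (cx R')} := by
        filter_upwards [h1, h2] with ε e1 e2
        exact hc' _ e1 (by omega)
      have := mem_closure_of_tendsto hF h3
      rwa [closure_closure] at this
    have e0 : ∀ᶠ ε : ℝ in 𝓝[>] (0:ℝ), 0 < ε := self_mem_nhdsWithin
    set A := cx R with hA
    by_cases c1 : ∃ (K : Finset (Fin n)) (k i j : Fin n), k ∉ K ∧ i ∉ insert k K ∧ j ∉ insert k K ∧ i ≠ j ∧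
        pp A (insert k K) i j = 0 ∧ pp A K i j ≠ 0
    · obtain ⟨K, k, i, j, hk, hi, hj, hij, h0, h1⟩ := c1
      refine close _ (tendsto_dgr R k) ?_ ?_
      · simp only [cx_dgr]
        exact step_dg (by linarith) hc1 hW k
      · simp only [cx_dgr]
        refine step_lt (tendsto_dg A k) hi hj hij h0 ?_
        filter_upwards [e0] with ε hε
        rw [pp_dg_insert A _ hk (hW.1 _).ne' (fun h => hi (by rw [h]; exact mem_insert_self _ _))
          (fun h => hj (by rw [h]; exact mem_insert_self _ _)), h0, zero_add]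
        exact mul_ne_zero (by exact_mod_cast hε.ne') h1
    by_cases c2 : ∃ (K : Finset (Fin n)) (k i j : Fin n), k ∉ K ∧ i ∉ insert k K ∧ j ∉ insert k K ∧ i ≠ j ∧
        pp A K i j = 0 ∧ pp A (insert k K) i j ≠ 0
    · obtain ⟨K, k, i, j, hk, hi, hj, hij, h0, h1⟩ := c2
      have hi' : i ∉ K := fun h => hi (mem_insert_of_mem h)
      have hj' : j ∉ K := fun h => hj (mem_insert_of_mem h)
      refine close _ (tendsto_rkr R k) ?_ ?_
      · simp only [cx_rkr]
        exact step_rk (by linarith) hc1 hW k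
      · simp only [cx_rkr]
        refine step_lt (tendsto_rk A k) hi' hj' hij h0 ?_
        filter_upwards [e0] with ε hε
        rw [pp_rk_notMem A _ hk, h0, mul_zero, zero_add]
        exact mul_ne_zero (by exact_mod_cast hε.ne') h1
    have hf : Flat A := by
      intro K
      induction K using Finset.induction_on with
      | empty => intro i j _ _ _; rw [pp_empty]
      | insert k K hk ihK =>
        intro i j hi hj hij
        rw [← ihK i j (fun h => hi (mem_insert_of_mem h)) (fun h => hj (mem_insert_of_mem h)) hij]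
        constructor
        · intro h
          by_contra h'
          exact c1 ⟨K, k, i, j, hk, hi, hj, hij, h, h'⟩
        · intro h
          by_contra h'
          exact c2 ⟨K, k, i, j, hk, hi, hj, hij, h, h'⟩
    obtain ⟨K, a, b, ha, hb, hab, h0⟩ := exists_zero (A := A) (by omega)
    have h0' := (hf K a b ha hb hab).mp h0
    refine close _ (tendsto_cnr R a b) ?_ ?_
    · simp only [cx_cnr]
      exact step_cn hc le_rfl hW hf hab h0'
    · simp only [cx_cnr]
      refine step_lt (tendsto_cn A a b) (K₀ := ∅) (by simp) (by simp) hab (by rw [pp_empty]; exact h0') ?_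
      filter_upwards [e0] with ε hε
      have e1 : pp (cn A a b (ε : ℂ)) ∅ a b = (ε : ℂ) := by
        rw [pp_empty, cn_apply, h0', zero_add, if_pos (Or.inl ⟨rfl, rfl⟩)]
      have e2 : pp (cn A a b (ε : ℂ)) ∅ a b ≠ 0 := by
        rw [e1]
        exact_mod_cast hε.ne'
      exact e2

/-- A real matrix with positive principal minors, almost principal minors in pairs of the same sign
(zero included), is a limit of real strict GKK matrices. -/
theorem real_mem_closure {R : Matrix (Fin n) (Fin n) ℝ} (hP : ∀ S, 0 < pmr R S)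
    (h : ∀ K i j, i ∉ K → j ∉ K → i ≠ j → Q (ppr R K i j) (ppr R K j i)) :
    R ∈ closure {R' : Matrix (Fin n) (Fin n) ℝ | IsStrictGKK (cx R')} := by
  obtain ⟨c, hc⟩ : ∃ c : ℝ, ∀ x : Finset (Fin n) × Fin n × Fin n,
      |ppr R x.1 x.2.1 x.2.2| / |ppr R x.1 x.2.2 x.2.1| ≤ c := by
    obtain ⟨c, hc⟩ := (Set.finite_range fun x : Finset (Fin n) × Fin n × Fin n =>
      |ppr R x.1 x.2.1 x.2.2| / |ppr R x.1 x.2.2 x.2.1|).bddAbove
    exact ⟨c, fun x => hc ⟨x, rfl⟩⟩
  have hP' : ∀ S, 0 < pm (cx R) S := fun S => pm_cx_pos.mpr (hP S)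
  have hW : W (max c 1) (cx R) := by
    refine ⟨hP', fun K i j hi hj hij => ⟨?_, ?_⟩⟩
    · rw [ap_eq_pp _ hP' hi hj hij, pp_cx, pp_cx, ← Complex.ofReal_mul, Complex.zero_le_real]
      exact (h K i j hi hj hij).1
    · rw [pp_cx, pp_cx, Complex.norm_real, Complex.norm_real, Real.norm_eq_abs, Real.norm_eq_abs]
      by_cases h0 : ppr R K j i = 0
      · rw [h0, (h K i j hi hj hij).2.mpr h0]
        simp
      · have h1 : 0 < |ppr R K j i| := abs_pos.mpr h0
        have h2 := (hc (K, i, j)).trans (le_max_left c 1)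
        rwa [div_le_iff₀ h1] at h2
  exact real_mem_closure_aux _ _ (le_max_right _ _) R hW le_rfl

end Pool.Agent.Helper21.UV
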